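import Pool.Agent.W76.MO.Stmts

set_option autoImplicit false

namespace Pool.Agent.W501.MO

open Finset Filter Topology
open scoped Classical
open Pool.Agent.W76.MO

theorem rp_le {a b : ℝ} (h : a ≤ b) : (2 : ℝ) ^ a ≤ 2 ^ b :=
  Real.rpow_le_rpow_of_exponent_le one_le_two h
theorem rp_lt {a b : ℝ} (h : a < b) : (2 : ℝ) ^ a < 2 ^ b :=
  Real.rpow_lt_rpow_of_exponent_lt one_lt_two h
theorem rp_pos (a : ℝ) : (0 : ℝ) < 2 ^ a := Real.rpow_pos_of_pos two_pos a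
theorem rp_add (a b : ℝ) : (2 : ℝ) ^ (a + b) = 2 ^ a * 2 ^ b := Real.rpow_add two_pos a b
theorem rp_nat (n : ℕ) : ((2 : ℝ) ^ n) = (2 : ℝ) ^ (n : ℝ) := (Real.rpow_natCast 2 n).symm
theorem rp_one : (2 : ℝ) = (2 : ℝ) ^ (1 : ℝ) := (Real.rpow_one 2).symm

theorem hh_pos (δ : ℝ) (i : ℕ) : 0 < hh δ i := by unfold hh; positivity

theorem hh_le {δ : ℝ} (hδ : δ ≤ 1 / 2) (i : ℕ) : (hh δ i : ℝ) ≤ 2 ^ ((1 / 2 - δ) * i) := by
  unfold hh
  push_cast
  rw [rp_nat]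
  apply rp_le
  exact Nat.floor_le (mul_nonneg (by linarith) (Nat.cast_nonneg _))

theorem le_hh (δ : ℝ) (i : ℕ) : (2 : ℝ) ^ ((1 / 2 - δ) * i - 1) ≤ hh δ i := by
  unfold hh
  push_cast
  rw [rp_nat]
  apply rp_le
  have := Nat.lt_floor_add_one ((1 / 2 - δ) * (i : ℝ))
  linarith

theorem cell_eq (δ : ℝ) (i k : ℕ) :
    cell δ i k = Ioc (2 ^ i + k * hh δ i) (2 ^ i + k * hh δ i + hh δ i) := by
  unfold cell
  congr 1
  ring

theorem card_cell (δ : ℝ) (i k : ℕ) : (cell δ i k).card = hh δ i := by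
  rw [cell_eq, Nat.card_Ioc]
  omega

theorem cell_top {δ : ℝ} {i k : ℕ} (hk : k < nc δ i) :
    2 ^ i + k * hh δ i + hh δ i ≤ 2 ^ (i + 1) := by
  have h1 : nc δ i * hh δ i ≤ 2 ^ i := Nat.div_mul_le_self _ _
  have h2 : (k + 1) * hh δ i ≤ nc δ i * hh δ i := Nat.mul_le_mul_right _ hk
  have h3 : (k + 1) * hh δ i = k * hh δ i + hh δ i := by ring
  have h4 : 2 ^ (i + 1) = 2 ^ i + 2 ^ i := by rw [pow_succ]; ring
  omega

theorem cell_bd {δ : ℝ} {i k n : ℕ} (hk : k < nc δ i) (hn : n ∈ cell δ i k) :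
    2 ^ i < n ∧ n ≤ 2 ^ (i + 1) := by
  have h1 := cell_top hk
  rw [cell_eq, Finset.mem_Ioc] at hn
  constructor
  · have : 0 ≤ k * hh δ i := Nat.zero_le _
    omega
  · omega

theorem card_mult (a h m : ℕ) (hm : 0 < m) (P : ℕ → Prop) :
    ((Ioc a (a + h)).filter (fun n => ∃ q, n = m * q ∧ P q)).card ≤
      ((Ioc (a / m) ((a + h) / m)).filter P).card := by
  refine le_trans (Finset.card_le_card (t := ((Ioc (a / m) ((a + h) / m)).filter P).image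
    (fun q => m * q)) ?_) Finset.card_image_le
  intro n hn
  rw [Finset.mem_filter, Finset.mem_Ioc] at hn
  obtain ⟨⟨h1, h2⟩, q, rfl, hq⟩ := hn
  rw [Finset.mem_image]
  refine ⟨q, ?_, rfl⟩
  rw [Finset.mem_filter, Finset.mem_Ioc]
  refine ⟨⟨?_, ?_⟩, hq⟩
  · rw [Nat.div_lt_iff_lt_mul hm, mul_comm]
    exact h1
  · rw [Nat.le_div_iff_mul_le hm, mul_comm]
    exact h2

theorem div_sub_le (a h m : ℕ) (hm : 0 < m) :
    (((a + h) / m : ℕ) : ℝ) - ((a / m : ℕ) : ℝ) ≤ h / m + 1 := by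
  have hm' : (0 : ℝ) < m := by exact_mod_cast hm
  have h1 : (((a + h) / m : ℕ) : ℝ) ≤ ((a + h : ℕ) : ℝ) / m := Nat.cast_div_le
  have h2 : ((a : ℝ)) / m < ((a / m : ℕ) : ℝ) + 1 := by
    rw [div_lt_iff₀ hm']
    have := Nat.lt_div_mul_add (a := a) hm
    have h3 : a < (a / m + 1) * m := by
      rw [add_mul, one_mul]
      exact this
    exact_mod_cast h3
  push_cast at h1
  rw [add_div] at h1
  linarith

theorem card_dvd (a h p : ℕ) (hp : 0 < p) :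
    (((Ioc a (a + h)).filter (fun n => p ∣ n)).card : ℝ) ≤ h / p + 1 := by
  have h1 : ((Ioc a (a + h)).filter (fun n => p ∣ n)).card ≤ (a + h) / p - a / p := by
    rw [← Nat.card_Ioc]
    refine le_trans (Finset.card_le_card (t := (Ioc (a / p) ((a + h) / p)).image
      (fun q => p * q)) ?_) Finset.card_image_le
    intro n hn
    rw [Finset.mem_filter, Finset.mem_Ioc] at hn
    obtain ⟨⟨h1, h2⟩, q, rfl⟩ := hn
    rw [Finset.mem_image]
    refine ⟨q, ?_, rfl⟩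
    rw [Finset.mem_Ioc]
    refine ⟨?_, ?_⟩
    · rw [Nat.div_lt_iff_lt_mul hp, mul_comm]
      exact h1
    · rw [Nat.le_div_iff_mul_le hp, mul_comm]
      exact h2
  have h3 : a / p ≤ (a + h) / p := Nat.div_le_div_right (Nat.le_add_right _ _)
  have h4 := div_sub_le a h p hp
  have h5 : (((Ioc a (a + h)).filter (fun n => p ∣ n)).card : ℝ) ≤
      (((a + h) / p - a / p : ℕ) : ℝ) := by exact_mod_cast h1
  rw [Nat.cast_sub h3] at h5
  linarith

/-- number of elements of `isU` in a part of a block -/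
theorem ucount_block (E : Env) {s : ℕ} (hs : E.i₁ ≤ s) {c d : ℕ} (hc : 2 ^ s ≤ c)
    (hcd : c ≤ d) (hd : d ≤ 2 ^ (s + 1)) :
    (((Ioc c d).filter E.isU).card : ℝ) ≤
      E.CU * (((d : ℝ) - c) + 2 ^ (E.τ / 4 * s) + 1) / (s : ℝ) ^ 4 := by
  have hs1 : 1 ≤ s := E.hi₁.trans hs
  have hτ := E.hτ
  have hτ' := E.hτ'
  have hsR : (1 : ℝ) ≤ s := by exact_mod_cast hs1
  set T : ℕ := ⌈(2 : ℝ) ^ (E.τ / 4 * s)⌉₊ with hT
  have hT1 : T ≤ 2 ^ s := by
    rw [hT]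
    apply Nat.ceil_le.mpr
    push_cast
    rw [rp_nat]
    apply rp_le
    nlinarith
  have hT2 : (2 : ℝ) ^ (E.τ / 4 * s) ≤ T := Nat.le_ceil _
  have hT3 : (T : ℝ) < (2 : ℝ) ^ (E.τ / 4 * s) + 1 := Nat.ceil_lt_add_one (rp_pos _).le
  have h2s : 2 ^ (s + 1) = 2 ^ s + 2 ^ s := by rw [pow_succ]; ring
  set L' : ℕ := max (d - c) T with hL'
  have hL1 : L' ≤ 2 ^ s := by
    rw [hL']
    apply max_le _ hT1
    omega
  obtain ⟨c', hc1, hc2, hc3, hc4⟩ : ∃ c', 2 ^ s ≤ c' ∧ c' ≤ c ∧ d ≤ c' + L' ∧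
      c' + L' ≤ 2 ^ (s + 1) := by
    have hdc : d - c ≤ L' := le_max_left _ _
    by_cases h : c + L' ≤ 2 ^ (s + 1)
    · exact ⟨c, hc, le_refl _, by omega, h⟩
    · refine ⟨2 ^ (s + 1) - L', by omega, by omega, by omega, by omega⟩
  have hLT : (2 : ℝ) ^ (E.τ / 4 * s) ≤ L' := by
    refine hT2.trans ?_
    exact_mod_cast le_max_right _ _
  have hup := E.u_up s hs c' L' hc1 hc4 hLT
  have hsub : (Ioc c d).filter E.isU ⊆ (Ioc c' (c' + L')).filter E.isU := by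
    apply Finset.filter_subset_filter
    apply Finset.Ioc_subset_Ioc hc2 hc3
  have hcard : (((Ioc c d).filter E.isU).card : ℝ) ≤
      (((Ioc c' (c' + L')).filter E.isU).card : ℝ) := by
    exact_mod_cast Finset.card_le_card hsub
  refine hcard.trans (hup.trans ?_)
  have hCU := E.hCU
  have hL2 : (L' : ℝ) ≤ ((d : ℝ) - c) + 2 ^ (E.τ / 4 * s) + 1 := by
    have h1 : L' ≤ (d - c) + T := by
      rw [hL']
      apply max_le <;> omega
    have h2 : (L' : ℝ) ≤ ((d - c : ℕ) : ℝ) + T := by exact_mod_cast h1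
    rw [Nat.cast_sub hcd] at h2
    linarith
  gcongr

theorem ucount (E : Env) {s : ℕ} (hs : E.i₁ ≤ s) {b e : ℕ} (hb : 2 ^ s ≤ b)
    (hbe : b ≤ e) (he : e ≤ 2 ^ (s + 2)) :
    (((Ioc b e).filter E.isU).card : ℝ) ≤
      2 * (E.CU * (((e : ℝ) - b) + 2 ^ (E.τ / 4 * (s + 1)) + 1) / (s : ℝ) ^ 4) := by
  have hs1 : 1 ≤ s := E.hi₁.trans hs
  have hτ := E.hτ
  have hCU := E.hCU
  have hsR : (1 : ℝ) ≤ s := by exact_mod_cast hs1
  have hbeR : (b : ℝ) ≤ e := by exact_mod_cast hbe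
  have hmono : (2 : ℝ) ^ (E.τ / 4 * s) ≤ 2 ^ (E.τ / 4 * (s + 1)) := by
    apply rp_le
    nlinarith
  have hpos : (0 : ℝ) ≤ E.CU * (((e : ℝ) - b) + 2 ^ (E.τ / 4 * (s + 1)) + 1) / (s : ℝ) ^ 4 := by
    have := rp_pos (E.τ / 4 * (s + 1))
    apply div_nonneg
    · apply mul_nonneg
      · linarith
      · linarith
    · positivity
  have hA : ∀ c d : ℕ, b ≤ c → d ≤ e → 2 ^ s ≤ c → c ≤ d → d ≤ 2 ^ (s + 1) →
      (((Ioc c d).filter E.isU).card : ℝ) ≤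
      E.CU * (((e : ℝ) - b) + 2 ^ (E.τ / 4 * (s + 1)) + 1) / (s : ℝ) ^ 4 := by
    intro c d h1 h2 h3 h4 h5
    refine (ucount_block E hs h3 h4 h5).trans ?_
    have h1' : (b : ℝ) ≤ c := by exact_mod_cast h1
    have h2' : (d : ℝ) ≤ e := by exact_mod_cast h2
    gcongr
  have hB : ∀ c d : ℕ, b ≤ c → d ≤ e → 2 ^ (s + 1) ≤ c → c ≤ d → d ≤ 2 ^ (s + 2) →
      (((Ioc c d).filter E.isU).card : ℝ) ≤
      E.CU * (((e : ℝ) - b) + 2 ^ (E.τ / 4 * (s + 1)) + 1) / (s : ℝ) ^ 4 := by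
    intro c d h1 h2 h3 h4 h5
    refine (ucount_block E (hs.trans (Nat.le_succ s)) h3 h4 h5).trans ?_
    have h1' : (b : ℝ) ≤ c := by exact_mod_cast h1
    have h2' : (d : ℝ) ≤ e := by exact_mod_cast h2
    have h3' : (s : ℝ) ≤ ((s.succ : ℕ) : ℝ) := by push_cast; linarith
    have h6 : (2 : ℝ) ^ (E.τ / 4 * ((s.succ : ℕ) : ℝ)) = 2 ^ (E.τ / 4 * (s + 1)) := by
      push_cast
      rfl
    rw [h6]
    have h7 := rp_pos (E.τ / 4 * (s + 1))
    have h8 : (0 : ℝ) ≤ (d : ℝ) - c := by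
      have : (c : ℝ) ≤ d := by exact_mod_cast h4
      linarith
    gcongr
  by_cases h1 : e ≤ 2 ^ (s + 1)
  · have := hA b e le_rfl le_rfl hb hbe h1
    linarith
  · push Not at h1
    by_cases h2 : 2 ^ (s + 1) ≤ b
    · have := hB b e le_rfl le_rfl h2 hbe he
      linarith
    · push Not at h2
      have h3 := hA b (2 ^ (s + 1)) le_rfl h1.le hb h2.le le_rfl
      have h4 := hB (2 ^ (s + 1)) e h2.le le_rfl le_rfl h1.le he
      have h5 : (Ioc b e).filter E.isU ⊆ (Ioc b (2 ^ (s + 1))).filter E.isU ∪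
          (Ioc (2 ^ (s + 1)) e).filter E.isU := by
        intro x hx
        rw [Finset.mem_filter, Finset.mem_Ioc] at hx
        rw [Finset.mem_union, Finset.mem_filter, Finset.mem_filter, Finset.mem_Ioc,
          Finset.mem_Ioc]
        by_cases h6 : x ≤ 2 ^ (s + 1)
        · exact Or.inl ⟨⟨hx.1.1, h6⟩, hx.2⟩
        · exact Or.inr ⟨⟨by omega, hx.1.2⟩, hx.2⟩
      have h6 : (((Ioc b e).filter E.isU).card : ℝ) ≤
          (((Ioc b (2 ^ (s + 1))).filter E.isU).card : ℝ) +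
          (((Ioc (2 ^ (s + 1)) e).filter E.isU).card : ℝ) := by
        exact_mod_cast (Finset.card_le_card h5).trans (Finset.card_union_le _ _)
      linarith

theorem bad_lt (E : Env) {i k : ℕ} (hk : k ∈ E.Bad i) : k < nc E.δ i := by
  unfold Env.Bad at hk
  rw [Finset.mem_filter, Finset.mem_range] at hk
  exact hk.1

end Pool.Agent.W501.MO
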