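import Pool.Agent.W501.MO.Base

set_option autoImplicit false

namespace Pool.Agent.W501.MO

open Finset Filter Topology
open scoped Classical
open Pool.Agent.W76.MO

theorem two_mul_rp (x : ℝ) : (2 : ℝ) * 2 ^ x = 2 ^ (1 + x) := by
  rw [rp_add, Real.rpow_one]

theorem sum_inv_le (M : ℕ) : ∑ m ∈ Icc 1 M, (1 : ℝ) / m ≤ 1 + Real.log M := by
  have h := harmonic_le_one_add_log M
  rw [harmonic_eq_sum_Icc] at h
  push_cast at h
  simpa [one_div] using h

/-- multiples `m q` with `q` in `isU`, `m` small -/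
theorem cardA1 (E : Env) {i a : ℕ} (ha : 2 ^ i ≤ a) (ha2 : a + hh E.δ i ≤ 2 ^ (i + 1))
    (hi : 8 ≤ E.τ * i) (hi1 : 2 * E.i₁ ≤ i) :
    ((((Ioc a (a + hh E.δ i))).filter (fun n => ∃ m : ℕ, (1 ≤ m ∧
      (m : ℝ) ≤ 2 * 2 ^ ((1 / 2 - E.τ) * i)) ∧ ∃ q, n = m * q ∧ E.isU q)).card : ℝ) ≤
      3072 * E.CU * hh E.δ i / (i : ℝ) ^ 3 := by
  have hτ := E.hτ
  have hτ' := E.hτ'
  have hδ := E.hδ
  have hδ' := E.hδ'
  have hCU := E.hCU
  have h1i := E.hi₁
  set h := hh E.δ i with hh'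
  have hi0 : 800 ≤ (i : ℝ) := by nlinarith [(Nat.cast_nonneg i : (0 : ℝ) ≤ i)]
  have hhpos : (0 : ℝ) < h := by exact_mod_cast hh_pos E.δ i
  set M : ℕ := ⌊2 * (2 : ℝ) ^ ((1 / 2 - E.τ) * i)⌋₊ with hM
  have hM0 : (0 : ℝ) ≤ 2 * (2 : ℝ) ^ ((1 / 2 - E.τ) * i) := by positivity
  have hMle : (M : ℝ) ≤ 2 * (2 : ℝ) ^ ((1 / 2 - E.τ) * i) := Nat.floor_le hM0
  have hsub : (Ioc a (a + h)).filter (fun n => ∃ m : ℕ, (1 ≤ m ∧
      (m : ℝ) ≤ 2 * 2 ^ ((1 / 2 - E.τ) * i)) ∧ ∃ q, n = m * q ∧ E.isU q) ⊆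
      (Icc 1 M).biUnion (fun m => (Ioc a (a + h)).filter (fun n => ∃ q, n = m * q ∧ E.isU q)) := by
    intro n hn
    rw [Finset.mem_filter] at hn
    obtain ⟨hn, m, ⟨hm1, hm2⟩, hq⟩ := hn
    rw [Finset.mem_biUnion]
    refine ⟨m, ?_, ?_⟩
    · rw [Finset.mem_Icc]
      exact ⟨hm1, Nat.le_floor hm2⟩
    · rw [Finset.mem_filter]
      exact ⟨hn, hq⟩
  have hone : ∀ m ∈ Icc 1 M, (((Ioc a (a + h)).filter
      (fun n => ∃ q, n = m * q ∧ E.isU q)).card : ℝ) ≤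
      1024 * E.CU * h / (i : ℝ) ^ 4 * (1 / m) := by
    intro m hm
    rw [Finset.mem_Icc] at hm
    obtain ⟨hm1, hm2⟩ := hm
    have hmR1 : (1 : ℝ) ≤ m := by exact_mod_cast hm1
    have hmR : (m : ℝ) ≤ 2 * (2 : ℝ) ^ ((1 / 2 - E.τ) * i) := by
      have : (m : ℝ) ≤ M := by exact_mod_cast hm2
      linarith
    have hc1 : (((Ioc a (a + h)).filter (fun n => ∃ q, n = m * q ∧ E.isU q)).card : ℝ) ≤
        (((Ioc (a / m) ((a + h) / m)).filter E.isU).card : ℝ) := by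
      exact_mod_cast card_mult a h m hm1 E.isU
    set b := a / m with hb
    set e := (a + h) / m with he
    have hb2 : 2 ^ (i / 2) ≤ b := by
      rw [hb, Nat.le_div_iff_mul_le hm1]
      refine le_trans ?_ ha
      have h1 : ((2 : ℝ) ^ (i / 2)) * m ≤ 2 ^ i := by
        have h2 : ((2 : ℝ) ^ (i / 2)) ≤ 2 ^ ((1 / 2 : ℝ) * i) := by
          rw [rp_nat]
          apply rp_le
          have := @Nat.cast_div_le ℝ _ _ _ i 2
          push_cast at this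
          linarith
        calc ((2 : ℝ) ^ (i / 2)) * m ≤ 2 ^ ((1 / 2 : ℝ) * i) * (2 * (2 : ℝ) ^ ((1 / 2 - E.τ) * i)) := by
              gcongr
          _ = 2 ^ ((1 / 2 : ℝ) * i + (1 + (1 / 2 - E.τ) * i)) := by
              rw [rp_add, rp_add, ← rp_one]
          _ ≤ 2 ^ (i : ℝ) := by
              apply rp_le
              linarith
          _ = 2 ^ i := (rp_nat i).symm
      exact_mod_cast h1
    have hbpos : 0 < b := lt_of_lt_of_le (by positivity) hb2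
    set s := Nat.log 2 b with hs
    have hs1 : 2 ^ s ≤ b := Nat.pow_log_le_self 2 hbpos.ne'
    have hs2 : b < 2 ^ (s + 1) := Nat.lt_pow_succ_log_self one_lt_two b
    have hs3 : i / 2 ≤ s := Nat.le_log_of_pow_le one_lt_two hb2
    have hs4 : s ≤ i + 1 := by
      have h1 : b ≤ a := Nat.div_le_self a m
      have h2 : 2 ^ s ≤ 2 ^ (i + 1) := by omega
      exact (Nat.pow_le_pow_iff_right one_lt_two).mp h2
    have hs5 : E.i₁ ≤ s := by omega
    have hbe : b ≤ e := Nat.div_le_div_right (Nat.le_add_right _ _)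
    have he2 : e ≤ 2 ^ (s + 2) := by
      have h1 : a < 2 ^ (s + 1) * m := (Nat.div_lt_iff_lt_mul hm1).mp hs2
      have h2 : a + h < 2 ^ (s + 2) * m := by
        have h3 : 2 ^ (s + 2) * m = 2 * (2 ^ (s + 1) * m) := by ring
        have h4 : 2 ^ (i + 1) = 2 * 2 ^ i := by ring
        omega
      exact ((Nat.div_lt_iff_lt_mul hm1).mpr h2).le
    have hcnt := ucount E hs5 hs1 hbe he2
    have hdiff : (e : ℝ) - b ≤ h / m + 1 := div_sub_le a h m hm1
    have hsR : (i : ℝ) / 4 ≤ s := by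
      have h1 : i ≤ 2 * s + 1 := by omega
      have h2 : (i : ℝ) ≤ 2 * s + 1 := by exact_mod_cast h1
      linarith
    have hsR2 : (s : ℝ) ≤ i + 1 := by exact_mod_cast hs4
    have hpw : (2 : ℝ) ^ (E.τ / 4 * (s + 1)) ≤ 2 ^ (E.τ / 4 * i + 1) := by
      apply rp_le
      nlinarith
    have h2pw : (2 : ℝ) ≤ 2 ^ (E.τ / 4 * i + 1) := by
      nth_rewrite 1 [rp_one]
      apply rp_le
      nlinarith
    have hhm : (2 : ℝ) ^ ((E.τ - E.δ) * i - 2) ≤ h / m := by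
      rw [le_div_iff₀ (by linarith)]
      calc (2 : ℝ) ^ ((E.τ - E.δ) * i - 2) * m
          ≤ 2 ^ ((E.τ - E.δ) * i - 2) * (2 * (2 : ℝ) ^ ((1 / 2 - E.τ) * i)) := by gcongr
        _ = 2 ^ (((E.τ - E.δ) * i - 2) + (1 + (1 / 2 - E.τ) * i)) := by
            rw [rp_add, rp_add 1, ← rp_one]
        _ ≤ 2 ^ ((1 / 2 - E.δ) * i - 1) := by
            apply rp_le
            linarith
        _ ≤ h := le_hh E.δ i
    have hbig : (h : ℝ) / m + 1 + 2 ^ (E.τ / 4 * (s + 1)) + 1 ≤ 2 * (h / m) := by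
      have h1 : (2 : ℝ) ^ (E.τ / 4 * i + 2) ≤ 2 ^ ((E.τ - E.δ) * i - 2) := by
        apply rp_le
        nlinarith
      have h2 : (2 : ℝ) ^ (E.τ / 4 * i + 2) = 2 * 2 ^ (E.τ / 4 * i + 1) := by
        have : E.τ / 4 * i + 2 = 1 + (E.τ / 4 * i + 1) := by ring
        rw [this, rp_add 1, ← rp_one]
      linarith
    calc (((Ioc a (a + h)).filter (fun n => ∃ q, n = m * q ∧ E.isU q)).card : ℝ)
        ≤ 2 * (E.CU * (((e : ℝ) - b) + 2 ^ (E.τ / 4 * (s + 1)) + 1) / (s : ℝ) ^ 4) :=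
          hc1.trans hcnt
      _ ≤ 2 * (E.CU * (2 * (h / m)) / ((i : ℝ) / 4) ^ 4) := by
          have h8 : ((e : ℝ) - b) + 2 ^ (E.τ / 4 * (s + 1)) + 1 ≤ 2 * (h / m) := by linarith
          have h9 : (0 : ℝ) < (i : ℝ) / 4 := by linarith
          gcongr
      _ = 1024 * E.CU * h / (i : ℝ) ^ 4 * (1 / m) := by
          field_simp
          ring
  have hcard : (((Ioc a (a + h)).filter (fun n => ∃ m : ℕ, (1 ≤ m ∧
      (m : ℝ) ≤ 2 * 2 ^ ((1 / 2 - E.τ) * i)) ∧ ∃ q, n = m * q ∧ E.isU q)).card : ℝ) ≤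
      ∑ m ∈ Icc 1 M, (((Ioc a (a + h)).filter (fun n => ∃ q, n = m * q ∧ E.isU q)).card : ℝ) := by
    exact_mod_cast (Finset.card_le_card hsub).trans Finset.card_biUnion_le
  refine hcard.trans ((Finset.sum_le_sum hone).trans ?_)
  rw [← Finset.mul_sum]
  have hlog : Real.log M ≤ i + 1 := by
    rcases Nat.eq_zero_or_pos M with h0 | h0
    · rw [h0]
      simp
      positivity
    · have hM1 : (0 : ℝ) < M := by exact_mod_cast h0
      have h1 : (M : ℝ) ≤ 2 ^ ((i : ℝ) + 1) := by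
        refine hMle.trans ?_
        nth_rewrite 1 [rp_one]
        rw [← rp_add]
        apply rp_le
        nlinarith
      have h2 : Real.log M ≤ ((i : ℝ) + 1) * Real.log 2 := by
        rw [← Real.log_rpow two_pos]
        exact Real.log_le_log hM1 h1
      have h3 : Real.log 2 ≤ 1 := by
        have := Real.log_two_lt_d9
        linarith
      nlinarith
  have hsum := sum_inv_le M
  have h3i : ∑ m ∈ Icc 1 M, (1 : ℝ) / m ≤ 3 * i := by linarith
  calc 1024 * E.CU * h / (i : ℝ) ^ 4 * ∑ m ∈ Icc 1 M, (1 : ℝ) / m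
      ≤ 1024 * E.CU * h / (i : ℝ) ^ 4 * (3 * i) := by gcongr
    _ = 3072 * E.CU * h / (i : ℝ) ^ 3 := by
        have : (0 : ℝ) < i := by linarith
        field_simp
        ring

/-- elements with a medium size prime factor in `isU` -/
theorem cardA2 (E : Env) {i a : ℕ} (ha2 : a + hh E.δ i ≤ 2 ^ (i + 1))
    (hi : 8 ≤ E.τ * i) (hi1 : (E.i₁ : ℝ) + 1 ≤ E.τ * i) :
    ((((Ioc a (a + hh E.δ i))).filter (fun n => ∃ p : ℕ, p ∣ n ∧ E.isU p ∧
      (2 : ℝ) ^ (E.τ * i) ≤ p ∧ (p : ℝ) ≤ 2 * 2 ^ ((1 / 2 - E.τ) * i))).card : ℝ) ≤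
      64 * E.CU / E.τ ^ 4 * hh E.δ i / (i : ℝ) ^ 3 := by
  have hτ := E.hτ
  have hτ' := E.hτ'
  have hδ := E.hδ
  have hδ' := E.hδ'
  have hCU := E.hCU
  have h1i := E.hi₁
  have hlh := le_hh E.δ i
  set h := hh E.δ i with hh'
  have hi0 : 800 ≤ (i : ℝ) := by nlinarith [(Nat.cast_nonneg i : (0 : ℝ) ≤ i)]
  have hhpos : (0 : ℝ) < h := by exact_mod_cast hh_pos E.δ i
  set S2 : Finset ℕ := (range (i + 1)).filter (fun s : ℕ => E.τ * i ≤ s + 1 ∧
    (2 : ℝ) ^ s ≤ 2 * 2 ^ ((1 / 2 - E.τ) * i)) with hS2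
  have hsub : (Ioc a (a + h)).filter (fun n => ∃ p : ℕ, p ∣ n ∧ E.isU p ∧
      (2 : ℝ) ^ (E.τ * i) ≤ p ∧ (p : ℝ) ≤ 2 * 2 ^ ((1 / 2 - E.τ) * i)) ⊆
      S2.biUnion (fun s => ((Ioc (2 ^ s) (2 ^ s + 2 ^ s)).filter E.isU).biUnion
        (fun p => (Ioc a (a + h)).filter (fun n => p ∣ n))) := by
    intro n hn
    rw [Finset.mem_filter] at hn
    obtain ⟨hn, p, hpn, hpU, hp1, hp2⟩ := hn
    have hnn := Finset.mem_Ioc.mp hn
    have hpp := E.u_prime p hpU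
    have hp2' := hpp.two_le
    have hple : p ≤ n := Nat.le_of_dvd (by omega) hpn
    set s := Nat.log 2 (p - 1) with hs
    have hs1 : 2 ^ s ≤ p - 1 := Nat.pow_log_le_self 2 (by omega)
    have hs2 : p - 1 < 2 ^ (s + 1) := Nat.lt_pow_succ_log_self one_lt_two _
    have h2s : 2 ^ (s + 1) = 2 ^ s + 2 ^ s := by ring
    have hpR : (2 : ℝ) ^ s ≤ p := by
      have : 2 ^ s ≤ p := by omega
      exact_mod_cast this
    rw [Finset.mem_biUnion]
    refine ⟨s, ?_, ?_⟩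
    · rw [hS2, Finset.mem_filter, Finset.mem_range]
      refine ⟨?_, ?_, ?_⟩
      · have h1 : 2 ^ s < 2 ^ (i + 1) := by omega
        exact (Nat.pow_lt_pow_iff_right one_lt_two).mp h1
      · have h1 : (p : ℝ) ≤ 2 ^ ((s : ℝ) + 1) := by
          have h3 : p ≤ 2 ^ (s + 1) := by omega
          have h4 : (p : ℝ) ≤ (2 : ℝ) ^ (s + 1) := by exact_mod_cast h3
          rw [rp_nat] at h4
          push_cast at h4
          exact h4
        have h2 := hp1.trans h1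
        exact (Real.rpow_le_rpow_left_iff one_lt_two).mp h2
      · linarith
    · rw [Finset.mem_biUnion]
      refine ⟨p, ?_, ?_⟩
      · rw [Finset.mem_filter, Finset.mem_Ioc]
        exact ⟨⟨by omega, by omega⟩, hpU⟩
      · rw [Finset.mem_filter]
        exact ⟨hn, hpn⟩
  have hone : ∀ s ∈ S2, ((((Ioc (2 ^ s) (2 ^ s + 2 ^ s)).filter E.isU).biUnion
        (fun p => (Ioc a (a + h)).filter (fun n => p ∣ n))).card : ℝ) ≤
      32 * E.CU / E.τ ^ 4 * h / (i : ℝ) ^ 4 := by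
    intro s hs
    rw [hS2, Finset.mem_filter, Finset.mem_range] at hs
    obtain ⟨hs0, hs1, hs2⟩ := hs
    have hs3 : E.i₁ ≤ s := by
      have : (E.i₁ : ℝ) ≤ s := by linarith
      exact_mod_cast this
    have hspos : (0 : ℝ) < 2 ^ s := by positivity
    have hcU : (((Ioc (2 ^ s) (2 ^ s + 2 ^ s)).filter E.isU).card : ℝ) ≤
        E.CU * (2 ^ s : ℝ) / (s : ℝ) ^ 4 := by
      have h1 := E.u_up s hs3 (2 ^ s) (2 ^ s) le_rfl (by rw [pow_succ]; omega) (by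
        push_cast
        rw [rp_nat]
        apply rp_le
        nlinarith [(Nat.cast_nonneg s : (0 : ℝ) ≤ s)])
      push_cast at h1
      exact h1
    have hp : ∀ p ∈ (Ioc (2 ^ s) (2 ^ s + 2 ^ s)).filter E.isU,
        (((Ioc a (a + h)).filter (fun n => p ∣ n)).card : ℝ) ≤ 2 * h / 2 ^ s := by
      intro p hp
      rw [Finset.mem_filter, Finset.mem_Ioc] at hp
      have hp1 : (2 : ℝ) ^ s ≤ p := by exact_mod_cast hp.1.1.le
      have h1 := card_dvd a h p (by have := hp.1.1; omega)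
      have h2 : (h : ℝ) / p ≤ h / 2 ^ s := by gcongr
      have h3 : (1 : ℝ) ≤ h / 2 ^ s := by
        rw [le_div_iff₀ hspos, one_mul]
        refine hs2.trans (le_trans ?_ hlh)
        nth_rewrite 1 [rp_one]
        rw [← rp_add]
        apply rp_le
        nlinarith
      have h4 : 2 * (h : ℝ) / 2 ^ s = h / 2 ^ s + h / 2 ^ s := by ring
      rw [h4]
      linarith
    have h1 : ((((Ioc (2 ^ s) (2 ^ s + 2 ^ s)).filter E.isU).biUnion
        (fun p => (Ioc a (a + h)).filter (fun n => p ∣ n))).card : ℝ) ≤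
        ∑ p ∈ (Ioc (2 ^ s) (2 ^ s + 2 ^ s)).filter E.isU,
          (((Ioc a (a + h)).filter (fun n => p ∣ n)).card : ℝ) := by
      exact_mod_cast Finset.card_biUnion_le
    have h2 := h1.trans (Finset.sum_le_sum hp)
    rw [Finset.sum_const, nsmul_eq_mul] at h2
    refine h2.trans ?_
    have hs4 : E.τ * i / 2 ≤ s := by linarith
    have hs5 : (0 : ℝ) < E.τ * i / 2 := by linarith
    calc (((Ioc (2 ^ s) (2 ^ s + 2 ^ s)).filter E.isU).card : ℝ) * (2 * h / 2 ^ s)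
        ≤ E.CU * (2 ^ s : ℝ) / (s : ℝ) ^ 4 * (2 * h / 2 ^ s) := by gcongr
      _ = 2 * E.CU * h / (s : ℝ) ^ 4 := by
          have : (0 : ℝ) < s := by linarith
          field_simp
      _ ≤ 2 * E.CU * h / (E.τ * i / 2) ^ 4 := by gcongr
      _ = 32 * E.CU / E.τ ^ 4 * h / (i : ℝ) ^ 4 := by
          field_simp
          ring
  have hcard : (((Ioc a (a + h)).filter (fun n => ∃ p : ℕ, p ∣ n ∧ E.isU p ∧
      (2 : ℝ) ^ (E.τ * i) ≤ p ∧ (p : ℝ) ≤ 2 * 2 ^ ((1 / 2 - E.τ) * i))).card : ℝ) ≤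
      ∑ s ∈ S2, ((((Ioc (2 ^ s) (2 ^ s + 2 ^ s)).filter E.isU).biUnion
        (fun p => (Ioc a (a + h)).filter (fun n => p ∣ n))).card : ℝ) := by
    exact_mod_cast (Finset.card_le_card hsub).trans Finset.card_biUnion_le
  refine hcard.trans ((Finset.sum_le_sum hone).trans ?_)
  rw [Finset.sum_const, nsmul_eq_mul]
  have hS : (S2.card : ℝ) ≤ 2 * i := by
    have h1 : S2.card ≤ i + 1 := by
      rw [hS2]
      exact (Finset.card_filter_le _ _).trans (by rw [Finset.card_range])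
    have h2 : (S2.card : ℝ) ≤ i + 1 := by exact_mod_cast h1
    linarith
  calc (S2.card : ℝ) * (32 * E.CU / E.τ ^ 4 * h / (i : ℝ) ^ 4)
      ≤ (2 * i) * (32 * E.CU / E.τ ^ 4 * h / (i : ℝ) ^ 4) := by gcongr
    _ = 64 * E.CU / E.τ ^ 4 * h / (i : ℝ) ^ 3 := by
        have : (0 : ℝ) < i := by linarith
        field_simp
        ring

/-- elements with a medium size prime factor in `H` -/
theorem cardA3 (E : Env) {i j a : ℕ} (ha2 : a + hh E.δ i ≤ 2 ^ (i + 1))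
    (hi : 8 ≤ E.τ * i) (hi1 : (E.i₁ : ℝ) + 1 ≤ E.τ * i) (hi2 : 8 ≤ E.τ * (E.τ * i)) :
    ((((Ioc a (a + hh E.δ i))).filter (fun n => ∃ p : ℕ, p ∣ n ∧ E.H j p ∧
      (2 : ℝ) ^ (E.τ * i) ≤ p ∧ (p : ℝ) ≤ 2 * 2 ^ ((1 / 2 - E.τ) * i))).card : ℝ) ≤
      6 * (i + 1) * hh E.δ i * 2 ^ (-(E.τ ^ 2 / 2) * i) := by
  have hτ := E.hτ
  have hτ' := E.hτ'
  have hδ := E.hδ
  have hδ' := E.hδ'
  have hCU := E.hCU
  have h1i := E.hi₁
  have hlh := le_hh E.δ i
  set h := hh E.δ i with hh'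
  have hi0 : 800 ≤ (i : ℝ) := by nlinarith [(Nat.cast_nonneg i : (0 : ℝ) ≤ i)]
  have hhpos : (0 : ℝ) < h := by exact_mod_cast hh_pos E.δ i
  set S3 : Finset ℕ := (range (i + 1)).filter (fun i' : ℕ => E.τ * i ≤ i' + 1 ∧
    (1 / 2 + E.τ) * i' ≤ (1 / 2 - E.τ) * i + 1) with hS3
  have hsub : (Ioc a (a + h)).filter (fun n => ∃ p : ℕ, p ∣ n ∧ E.H j p ∧
      (2 : ℝ) ^ (E.τ * i) ≤ p ∧ (p : ℝ) ≤ 2 * 2 ^ ((1 / 2 - E.τ) * i)) ⊆
      S3.biUnion (fun i' => (E.Bad i').biUnion (fun k' => (cell E.δ i' k').biUnion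
        (fun n' => (Ioc a (a + h)).filter (fun n => ∃ p : ℕ, p.Prime ∧ p ∣ n ∧ p ∣ n' ∧
          (2 : ℝ) ^ ((1 / 2 + E.τ) * i') ≤ p)))) := by
    intro n hn
    rw [Finset.mem_filter] at hn
    obtain ⟨hn, p, hpn, ⟨hpp, i', hji', k', hk', n', hn', hpn', hp3⟩, hp1, hp2⟩ := hn
    have hnn := Finset.mem_Ioc.mp hn
    have hbd := cell_bd (bad_lt E hk') hn'
    have hple : p ≤ n' := Nat.le_of_dvd (by
      have := hbd.1
      omega) hpn'
    have hpR : (p : ℝ) ≤ 2 ^ ((i' : ℝ) + 1) := by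
      have h3 : p ≤ 2 ^ (i' + 1) := by omega
      have h4 : (p : ℝ) ≤ (2 : ℝ) ^ (i' + 1) := by exact_mod_cast h3
      rw [rp_nat] at h4
      push_cast at h4
      exact h4
    have hcond : (1 / 2 + E.τ) * i' ≤ (1 / 2 - E.τ) * i + 1 := by
      have h2 := hp3.trans hp2
      rw [two_mul_rp] at h2
      have h3 := (Real.rpow_le_rpow_left_iff one_lt_two).mp h2
      linarith
    rw [Finset.mem_biUnion]
    refine ⟨i', ?_, ?_⟩
    · rw [hS3, Finset.mem_filter, Finset.mem_range]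
      refine ⟨?_, ?_, hcond⟩
      · have h1 : (1 / 2 + E.τ) * (i' : ℝ) ≤ (1 / 2 + E.τ) * i := by nlinarith
        have h2 : (i' : ℝ) ≤ i := le_of_mul_le_mul_left h1 (by linarith)
        have h3 : i' ≤ i := by exact_mod_cast h2
        omega
      · have h2 := hp1.trans hpR
        exact (Real.rpow_le_rpow_left_iff one_lt_two).mp h2
    · rw [Finset.mem_biUnion]
      refine ⟨k', hk', ?_⟩
      rw [Finset.mem_biUnion]
      refine ⟨n', hn', ?_⟩
      rw [Finset.mem_filter]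
      exact ⟨hn, p, hpp, hpn, hpn', hp3⟩
  have hone : ∀ i' ∈ S3, (((E.Bad i').biUnion (fun k' => (cell E.δ i' k').biUnion
        (fun n' => (Ioc a (a + h)).filter (fun n => ∃ p : ℕ, p.Prime ∧ p ∣ n ∧ p ∣ n' ∧
          (2 : ℝ) ^ ((1 / 2 + E.τ) * i') ≤ p)))).card : ℝ) ≤
      6 * h * 2 ^ (-(E.τ ^ 2 / 2) * i) := by
    intro i' hi'
    rw [hS3, Finset.mem_filter, Finset.mem_range] at hi'
    obtain ⟨hi0', hi1', hi2'⟩ := hi'
    have hi3 : E.i₁ ≤ i' := by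
      have : (E.i₁ : ℝ) ≤ i' := by linarith
      exact_mod_cast this
    have hi4 : (7 : ℝ) ≤ i' := by linarith
    have hbad : ((E.Bad i').card : ℝ) ≤ 2 ^ (3 * E.δ * i') := E.u_bad i' hi3
    have hinner : ∀ k' ∈ E.Bad i', ∀ n' ∈ cell E.δ i' k', (((Ioc a (a + h)).filter
        (fun n => ∃ p : ℕ, p.Prime ∧ p ∣ n ∧ p ∣ n' ∧
          (2 : ℝ) ^ ((1 / 2 + E.τ) * i') ≤ p)).card : ℝ) ≤
          h * 2 ^ (-((1 / 2 + E.τ) * i')) + 1 := by
      intro k' hk' n' hn'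
      have hbd := cell_bd (bad_lt E hk') hn'
      have hn0 : n' ≠ 0 := by
        have := hbd.1
        omega
      by_cases hex : ∃ p : ℕ, p.Prime ∧ p ∣ n' ∧ (2 : ℝ) ^ ((1 / 2 + E.τ) * i') ≤ p
      · obtain ⟨p, hp, hpn', hp3⟩ := hex
        have hppos : (0 : ℝ) < p := by exact_mod_cast hp.pos
        have hsub2 : (Ioc a (a + h)).filter (fun n => ∃ p : ℕ, p.Prime ∧ p ∣ n ∧ p ∣ n' ∧
            (2 : ℝ) ^ ((1 / 2 + E.τ) * i') ≤ p) ⊆ (Ioc a (a + h)).filter (fun n => p ∣ n) := by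
          intro n hn
          rw [Finset.mem_filter] at hn ⊢
          obtain ⟨hn, p', hp', hp'n, hp'n', hp'3⟩ := hn
          refine ⟨hn, ?_⟩
          by_cases hpp : p = p'
          · rw [hpp]; exact hp'n
          exfalso
          have hcop : Nat.Coprime p p' := (Nat.coprime_primes hp hp').mpr hpp
          have hdvd : p * p' ∣ n' := hcop.mul_dvd_of_dvd_of_dvd hpn' hp'n'
          have hle : p * p' ≤ 2 ^ (i' + 1) := (Nat.le_of_dvd (Nat.pos_of_ne_zero hn0) hdvd).trans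
            hbd.2
          have hleR : (p : ℝ) * p' ≤ (2 : ℝ) ^ (i' + 1) := by exact_mod_cast hle
          have h5 : (2 : ℝ) ^ ((1 / 2 + E.τ) * i') * (2 : ℝ) ^ ((1 / 2 + E.τ) * i') ≤ p * p' := by
            gcongr
          rw [← rp_add] at h5
          have h6 : (2 : ℝ) ^ (((i' : ℝ)) + 1) < 2 ^ ((1 / 2 + E.τ) * i' + (1 / 2 + E.τ) * i') := by
            apply rp_lt
            nlinarith
          rw [rp_nat] at hleR
          push_cast at hleR
          linarith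
        have h1 : (((Ioc a (a + h)).filter (fun n => ∃ p : ℕ, p.Prime ∧ p ∣ n ∧ p ∣ n' ∧
            (2 : ℝ) ^ ((1 / 2 + E.τ) * i') ≤ p)).card : ℝ) ≤
            (((Ioc a (a + h)).filter (fun n => p ∣ n)).card : ℝ) := by
          exact_mod_cast Finset.card_le_card hsub2
        have h2 := card_dvd a h p hp.pos
        have h3 : (h : ℝ) / p ≤ h * 2 ^ (-((1 / 2 + E.τ) * i')) := by
          rw [Real.rpow_neg two_pos.le, ← div_eq_mul_inv]
          have := rp_pos ((1 / 2 + E.τ) * i')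
          gcongr
        linarith
      · have h1 : (Ioc a (a + h)).filter (fun n => ∃ p : ℕ, p.Prime ∧ p ∣ n ∧ p ∣ n' ∧
            (2 : ℝ) ^ ((1 / 2 + E.τ) * i') ≤ p) = ∅ := by
          apply Finset.filter_eq_empty_iff.mpr
          rintro n _ ⟨p, hp, _, hpn', hp3⟩
          exact hex ⟨p, hp, hpn', hp3⟩
        rw [h1, Finset.card_empty]
        have := rp_pos (-((1 / 2 + E.τ) * i'))
        push_cast
        positivity
    have hcell : ∀ k' ∈ E.Bad i', (((cell E.δ i' k').biUnion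
        (fun n' => (Ioc a (a + h)).filter (fun n => ∃ p : ℕ, p.Prime ∧ p ∣ n ∧ p ∣ n' ∧
          (2 : ℝ) ^ ((1 / 2 + E.τ) * i') ≤ p))).card : ℝ) ≤
        2 ^ ((1 / 2 - E.δ) * i') * (h * 2 ^ (-((1 / 2 + E.τ) * i')) + 1) := by
      intro k' hk'
      have h1 : (((cell E.δ i' k').biUnion
        (fun n' => (Ioc a (a + h)).filter (fun n => ∃ p : ℕ, p.Prime ∧ p ∣ n ∧ p ∣ n' ∧
          (2 : ℝ) ^ ((1 / 2 + E.τ) * i') ≤ p))).card : ℝ) ≤
          ∑ n' ∈ cell E.δ i' k', (((Ioc a (a + h)).filter (fun n => ∃ p : ℕ, p.Prime ∧ p ∣ n ∧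
            p ∣ n' ∧ (2 : ℝ) ^ ((1 / 2 + E.τ) * i') ≤ p)).card : ℝ) := by
        exact_mod_cast Finset.card_biUnion_le
      have h2 := h1.trans (Finset.sum_le_sum (hinner k' hk'))
      rw [Finset.sum_const, nsmul_eq_mul, card_cell] at h2
      refine h2.trans ?_
      have h3 := hh_le (δ := E.δ) (by linarith) i'
      have := rp_pos (-((1 / 2 + E.τ) * i'))
      gcongr
    have h1 : (((E.Bad i').biUnion (fun k' => (cell E.δ i' k').biUnion
        (fun n' => (Ioc a (a + h)).filter (fun n => ∃ p : ℕ, p.Prime ∧ p ∣ n ∧ p ∣ n' ∧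
          (2 : ℝ) ^ ((1 / 2 + E.τ) * i') ≤ p)))).card : ℝ) ≤
        ∑ k' ∈ E.Bad i', (((cell E.δ i' k').biUnion
        (fun n' => (Ioc a (a + h)).filter (fun n => ∃ p : ℕ, p.Prime ∧ p ∣ n ∧ p ∣ n' ∧
          (2 : ℝ) ^ ((1 / 2 + E.τ) * i') ≤ p))).card : ℝ) := by
      exact_mod_cast Finset.card_biUnion_le
    have h2 := h1.trans (Finset.sum_le_sum hcell)
    rw [Finset.sum_const, nsmul_eq_mul] at h2
    refine h2.trans ?_
    have hp0 := rp_pos (-((1 / 2 + E.τ) * i'))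
    have hp1 := rp_pos ((1 / 2 - E.δ) * i')
    calc ((E.Bad i').card : ℝ) *
          (2 ^ ((1 / 2 - E.δ) * i') * (h * 2 ^ (-((1 / 2 + E.τ) * i')) + 1))
        ≤ 2 ^ (3 * E.δ * i') *
          (2 ^ ((1 / 2 - E.δ) * i') * (h * 2 ^ (-((1 / 2 + E.τ) * i')) + 1)) := by gcongr
      _ = h * 2 ^ (3 * E.δ * i' + ((1 / 2 - E.δ) * i' + (-((1 / 2 + E.τ) * i')))) +
          2 ^ (3 * E.δ * i' + (1 / 2 - E.δ) * i') := by
          rw [rp_add, rp_add ((1 / 2 - E.δ) * i'), rp_add (3 * E.δ * i') ((1 / 2 - E.δ) * i')]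
          ring
      _ ≤ h * 2 ^ (1 + (-(E.τ ^ 2 / 2) * i)) + h * 2 ^ (2 + (-(E.τ ^ 2 / 2) * i)) := by
          have e1 : 3 * E.δ * (i' : ℝ) + ((1 / 2 - E.δ) * i' + (-((1 / 2 + E.τ) * i'))) ≤
              1 + (-(E.τ ^ 2 / 2) * i) := by
            have : 3 * E.δ * (i' : ℝ) + ((1 / 2 - E.δ) * i' + (-((1 / 2 + E.τ) * i'))) =
              -(E.τ - 2 * E.δ) * i' := by ring
            rw [this]
            have h7 : E.τ / 2 ≤ E.τ - 2 * E.δ := by linarith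
            have h8 : E.τ / 2 * (i' : ℝ) ≤ (E.τ - 2 * E.δ) * i' := by gcongr
            have h9 : E.τ / 2 * (E.τ * i - 1) ≤ E.τ / 2 * i' := by
              apply mul_le_mul_of_nonneg_left _ (by linarith)
              linarith
            nlinarith
          have e2 : (2 : ℝ) ^ (3 * E.δ * i' + (1 / 2 - E.δ) * i') ≤
              h * 2 ^ (2 + (-(E.τ ^ 2 / 2) * i)) := by
            have h7 : 3 * E.δ * (i' : ℝ) + (1 / 2 - E.δ) * i' ≤
                ((1 / 2 - E.δ) * i - 1) + (2 + (-(E.τ ^ 2 / 2) * i)) := by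
              have h8 : 3 * E.δ * (i' : ℝ) + (1 / 2 - E.δ) * i' ≤ (1 / 2 + E.τ) * i' := by
                have : 0 ≤ (E.τ - 2 * E.δ) * (i' : ℝ) := by
                  apply mul_nonneg <;> linarith
                nlinarith
              have h9 : E.τ ^ 2 / 2 * i ≤ E.τ / 2 * (i : ℝ) := by
                have : E.τ ^ 2 / 2 ≤ E.τ / 2 := by nlinarith
                gcongr
              nlinarith
            calc (2 : ℝ) ^ (3 * E.δ * i' + (1 / 2 - E.δ) * i')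
                ≤ 2 ^ (((1 / 2 - E.δ) * i - 1) + (2 + (-(E.τ ^ 2 / 2) * i))) := rp_le h7
              _ = 2 ^ ((1 / 2 - E.δ) * i - 1) * 2 ^ (2 + (-(E.τ ^ 2 / 2) * i)) := rp_add _ _
              _ ≤ h * 2 ^ (2 + (-(E.τ ^ 2 / 2) * i)) := by
                  have := rp_pos (2 + (-(E.τ ^ 2 / 2) * i))
                  gcongr
          have e3 := rp_le e1
          have e4 : (h : ℝ) * 2 ^ (3 * E.δ * i' + ((1 / 2 - E.δ) * i' + (-((1 / 2 + E.τ) * i')))) ≤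
            h * 2 ^ (1 + (-(E.τ ^ 2 / 2) * i)) := by gcongr
          linarith
      _ = 6 * h * 2 ^ (-(E.τ ^ 2 / 2) * i) := by
          rw [rp_add 1, rp_add 2, ← rp_one]
          have : (2 : ℝ) ^ (2 : ℝ) = 4 := by norm_num
          rw [this]
          ring
  have hcard : (((Ioc a (a + h)).filter (fun n => ∃ p : ℕ, p ∣ n ∧ E.H j p ∧
      (2 : ℝ) ^ (E.τ * i) ≤ p ∧ (p : ℝ) ≤ 2 * 2 ^ ((1 / 2 - E.τ) * i))).card : ℝ) ≤
      ∑ i' ∈ S3, (((E.Bad i').biUnion (fun k' => (cell E.δ i' k').biUnion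
        (fun n' => (Ioc a (a + h)).filter (fun n => ∃ p : ℕ, p.Prime ∧ p ∣ n ∧ p ∣ n' ∧
          (2 : ℝ) ^ ((1 / 2 + E.τ) * i') ≤ p)))).card : ℝ) := by
    exact_mod_cast (Finset.card_le_card hsub).trans Finset.card_biUnion_le
  refine hcard.trans ((Finset.sum_le_sum hone).trans ?_)
  rw [Finset.sum_const, nsmul_eq_mul]
  have hS : (S3.card : ℝ) ≤ i + 1 := by
    have h1 : S3.card ≤ i + 1 := by
      rw [hS3]
      exact (Finset.card_filter_le _ _).trans (by rw [Finset.card_range])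
    exact_mod_cast h1
  have := rp_pos (-(E.τ ^ 2 / 2) * i)
  calc (S3.card : ℝ) * (6 * h * 2 ^ (-(E.τ ^ 2 / 2) * i))
      ≤ ((i : ℝ) + 1) * (6 * h * 2 ^ (-(E.τ ^ 2 / 2) * i)) := by gcongr
    _ = 6 * ((i : ℝ) + 1) * h * 2 ^ (-(E.τ ^ 2 / 2) * i) := by ring

theorem lp_eq {m q : ℕ} (hq : q.Prime) (hm : m ≠ 0) (hmq : m < q) : Pool.Agent.W76.MO.lp (m * q) = q := by
  unfold Pool.Agent.W76.MO.lp
  rw [Nat.primeFactors_mul hm hq.ne_zero, hq.primeFactors]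
  rw [Finset.sup_union]
  simp only [Finset.sup_singleton, id]
  apply sup_eq_right.mpr
  apply Finset.sup_le
  intro p hp
  have := Nat.le_of_mem_primeFactors hp
  simp only [id]
  omega

theorem eventually_small (C K c ε : ℝ) (hc : 0 < c) (hε : 0 < ε) :
    ∀ᶠ i : ℕ in atTop, C / (i : ℝ) ^ 3 + K * ((i : ℝ) + 1) * 2 ^ (-c * i) ≤ ε / i := by
  have hr : |(2 : ℝ) ^ (-c)| < 1 := by
    rw [abs_of_pos (rp_pos _)]
    exact Real.rpow_lt_one_of_one_lt_of_neg one_lt_two (by linarith)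
  have h1 := tendsto_pow_const_mul_const_pow_of_abs_lt_one 2 hr
  have h2 : Tendsto (fun i : ℕ => C / (i : ℝ) ^ 2 + |K| * 2 * ((i : ℝ) ^ 2 * ((2 : ℝ) ^ (-c)) ^ i))
      atTop (𝓝 (0 + |K| * 2 * 0)) := by
    apply Tendsto.add
    · have h3 : Tendsto (fun i : ℕ => (i : ℝ) ^ 2) atTop atTop :=
        (tendsto_pow_atTop two_ne_zero).comp tendsto_natCast_atTop_atTop
      exact tendsto_const_nhds.div_atTop h3
    · exact h1.const_mul _
  rw [mul_zero, add_zero] at h2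
  filter_upwards [h2.eventually_lt_const hε, eventually_ge_atTop 1] with i hi hi1
  have hi1R : (1 : ℝ) ≤ i := by exact_mod_cast hi1
  have hpow : (2 : ℝ) ^ (-c * i) = ((2 : ℝ) ^ (-c)) ^ i := Real.rpow_mul_natCast two_pos.le _ _
  rw [le_div_iff₀ (by linarith), hpow]
  have hpp : (0 : ℝ) < ((2 : ℝ) ^ (-c)) ^ i := by positivity
  set P := ((2 : ℝ) ^ (-c)) ^ i with hP
  have e1 : (C / (i : ℝ) ^ 3 + K * ((i : ℝ) + 1) * P) * i =
      C / (i : ℝ) ^ 2 + K * (((i : ℝ) + 1) * i * P) := by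
    field_simp
  rw [e1]
  have e2 : K * (((i : ℝ) + 1) * i * P) ≤ |K| * 2 * ((i : ℝ) ^ 2 * P) := by
    have h5 : ((i : ℝ) + 1) * i * P ≤ 2 * ((i : ℝ) ^ 2 * P) := by
      have h6 : ((i : ℝ) + 1) * i ≤ 2 * (i : ℝ) ^ 2 := by nlinarith
      nlinarith
    calc K * (((i : ℝ) + 1) * i * P) ≤ |K| * (((i : ℝ) + 1) * i * P) := by
          gcongr
          exact le_abs_self K
      _ ≤ |K| * (2 * ((i : ℝ) ^ 2 * P)) := by gcongr
      _ = |K| * 2 * ((i : ℝ) ^ 2 * P) := by ring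
  linarith

theorem hc : Pool.Agent.W76.MO.T_HC := by
  intro E
  have hτ := E.hτ
  have hτ' := E.hτ'
  have hδ := E.hδ
  have hδ' := E.hδ'
  have hCU := E.hCU
  have hcH := E.hcH
  have h1i := E.hi₁
  have ev1 := eventually_small (3072 * E.CU + 64 * E.CU / E.τ ^ 4) 6 (E.τ ^ 2 / 2) (E.cH / 2)
    (by positivity) (by linarith)
  have ev2 : ∀ᶠ i : ℕ in atTop, (8 : ℝ) / E.τ + (E.i₁ + 1) / E.τ + 8 / (E.τ * E.τ) ≤ i :=
    tendsto_natCast_atTop_atTop.eventually_ge_atTop _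
  obtain ⟨J, hJ⟩ := eventually_atTop.mp (ev1.and (ev2.and (eventually_ge_atTop (2 * E.i₁))))
  refine ⟨J, fun j hj i hij k hk => ?_⟩
  obtain ⟨hs1, hs2, hs3⟩ := hJ i (hj.trans hij)
  have hk' := bad_lt E hk
  have hp1 : (0 : ℝ) ≤ 8 / E.τ := by positivity
  have hp2 : (0 : ℝ) ≤ (E.i₁ + 1) / E.τ := by positivity
  have hp3 : (0 : ℝ) ≤ 8 / (E.τ * E.τ) := by positivity
  have c1 : 8 ≤ E.τ * i := by
    have : 8 / E.τ ≤ i := by linarith
    rw [div_le_iff₀ hτ] at this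
    linarith
  have c2 : (E.i₁ : ℝ) + 1 ≤ E.τ * i := by
    have : (E.i₁ + 1) / E.τ ≤ i := by linarith
    rw [div_le_iff₀ hτ] at this
    linarith
  have c3 : 8 ≤ E.τ * (E.τ * i) := by
    have : 8 / (E.τ * E.τ) ≤ i := by linarith
    rw [div_le_iff₀ (by positivity)] at this
    linarith
  have hi0 : 800 ≤ (i : ℝ) := by nlinarith [(Nat.cast_nonneg i : (0 : ℝ) ≤ i)]
  set a := 2 ^ i + k * hh E.δ i with ha
  have hcell : cell E.δ i k = Ioc a (a + hh E.δ i) := cell_eq _ _ _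
  have ha1 : 2 ^ i ≤ a := Nat.le_add_right _ _
  have ha2 : a + hh E.δ i ≤ 2 ^ (i + 1) := cell_top hk'
  have hA1 := cardA1 E ha1 ha2 c1 hs3
  have hA2 := cardA2 E ha2 c1 c2
  have hA3 := cardA3 E (j := j) ha2 c1 c2 c3
  set A1 := (Ioc a (a + hh E.δ i)).filter (fun n => ∃ m : ℕ, (1 ≤ m ∧
      (m : ℝ) ≤ 2 * 2 ^ ((1 / 2 - E.τ) * i)) ∧ ∃ q, n = m * q ∧ E.isU q) with hA1'
  set A2 := (Ioc a (a + hh E.δ i)).filter (fun n => ∃ p : ℕ, p ∣ n ∧ E.isU p ∧
      (2 : ℝ) ^ (E.τ * i) ≤ p ∧ (p : ℝ) ≤ 2 * 2 ^ ((1 / 2 - E.τ) * i)) with hA2'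
  set A3 := (Ioc a (a + hh E.δ i)).filter (fun n => ∃ p : ℕ, p ∣ n ∧ E.H j p ∧
      (2 : ℝ) ^ (E.τ * i) ≤ p ∧ (p : ℝ) ≤ 2 * 2 ^ ((1 / 2 - E.τ) * i)) with hA3'
  have hsub : (cell E.δ i k).filter (HostNum E.τ E.τ i) ⊆
      E.Host j i k ∪ (A1 ∪ (A2 ∪ A3)) := by
    intro n hn
    rw [Finset.mem_filter] at hn
    obtain ⟨hnc, m, q, hnmq, hq, hq1, hm1, hmsq, hmr⟩ := hn
    have hbd := cell_bd hk' hnc
    have hnI : n ∈ Ioc a (a + hh E.δ i) := by rw [← hcell]; exact hnc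
    have hq0 : (0 : ℝ) < q := by exact_mod_cast hq.pos
    have hmR : (m : ℝ) ≤ 2 * 2 ^ ((1 / 2 - E.τ) * i) := by
      have h1 : (m : ℝ) * q ≤ 2 ^ (i + 1) := by
        have := hbd.2
        rw [hnmq] at this
        exact_mod_cast this
      have h2 : (m : ℝ) * 2 ^ ((1 / 2 + E.τ) * i) ≤ 2 ^ (i + 1) := by
        refine le_trans ?_ h1
        gcongr
      rw [rp_nat] at h2
      have h3 : (m : ℝ) ≤ 2 ^ ((((i + 1 : ℕ) : ℝ)) - (1 / 2 + E.τ) * i) := by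
        rw [Real.rpow_sub two_pos, le_div_iff₀ (rp_pos _)]
        exact h2
      refine h3.trans ?_
      rw [two_mul_rp]
      apply rp_le
      push_cast
      linarith
    have hmq : m < q := by
      have h1 : (m : ℝ) < q := by
        refine hmR.trans_lt (lt_of_lt_of_le ?_ hq1)
        rw [two_mul_rp]
        apply rp_lt
        linarith
      exact_mod_cast h1
    have hm0 : m ≠ 0 := by omega
    have hlp : Pool.Agent.W76.MO.lp n = q := by rw [hnmq]; exact lp_eq hq hm0 hmq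
    have hdiv : n / Pool.Agent.W76.MO.lp n = m := by
      rw [hlp, hnmq]
      exact Nat.mul_div_cancel m hq.pos
    by_contra hnot
    rw [Finset.mem_union, Finset.mem_union, Finset.mem_union] at hnot
    push Not at hnot
    obtain ⟨hnH, hn1, hn2, hn3⟩ := hnot
    apply hnH
    unfold Env.Host
    rw [Finset.mem_filter]
    refine ⟨hnc, ?_, ?_, ?_, ?_, ?_, ?_⟩
    · rw [hlp]; exact hq1
    · rw [hlp, hnmq]
      have := hq.pos
      nlinarith
    · rw [hnmq]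
      have hcop : Nat.Coprime m q := by
        rw [Nat.coprime_comm, Nat.Prime.coprime_iff_not_dvd hq]
        intro hdvd
        have := Nat.le_of_dvd (by omega) hdvd
        omega
      rw [Nat.squarefree_mul_iff]
      exact ⟨hcop, hmsq, hq.squarefree⟩
    · intro p hp hpn
      rw [hnmq] at hpn
      rcases (Nat.Prime.dvd_mul hp).mp hpn with h1 | h1
      · exact hmr p hp h1
      · have h2 : p = q := (Nat.prime_dvd_prime_iff_eq hp hq).mp h1
        rw [h2]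
        refine le_trans ?_ hq1
        apply rp_le
        nlinarith
    · intro hU
      apply hn1
      rw [hA1', Finset.mem_filter]
      rw [hlp] at hU
      exact ⟨hnI, m, ⟨by omega, hmR⟩, q, hnmq, hU.1⟩
    · intro p hp hpm
      rw [hdiv] at hpm
      have hp1 : (2 : ℝ) ^ (E.τ * i) ≤ p := hmr p hp hpm
      have hp2 : (p : ℝ) ≤ 2 * 2 ^ ((1 / 2 - E.τ) * i) := by
        refine le_trans ?_ hmR
        exact_mod_cast Nat.le_of_dvd (by omega) hpm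
      have hpn : p ∣ n := by rw [hnmq]; exact hpm.mul_right q
      constructor
      · intro hU
        apply hn2
        rw [hA2', Finset.mem_filter]
        exact ⟨hnI, p, hpn, hU.1, hp1, hp2⟩
      · intro hH
        apply hn3
        rw [hA3', Finset.mem_filter]
        exact ⟨hnI, p, hpn, hH, hp1, hp2⟩
  have hhost := E.host i (by omega) k hk'
  have hcard : (((cell E.δ i k).filter (HostNum E.τ E.τ i)).card : ℝ) ≤
      ((E.Host j i k).card : ℝ) + ((A1.card : ℝ) + ((A2.card : ℝ) + (A3.card : ℝ))) := by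
    have h1 := Finset.card_le_card hsub
    have h2 := Finset.card_union_le (E.Host j i k) (A1 ∪ (A2 ∪ A3))
    have h3 := Finset.card_union_le A1 (A2 ∪ A3)
    have h4 := Finset.card_union_le A2 A3
    have h5 : ((cell E.δ i k).filter (HostNum E.τ E.τ i)).card ≤
      (E.Host j i k).card + (A1.card + (A2.card + A3.card)) := by omega
    exact_mod_cast h5
  have hhp : (0 : ℝ) < hh E.δ i := by exact_mod_cast hh_pos E.δ i
  have hfin : 3072 * E.CU * hh E.δ i / (i : ℝ) ^ 3 + (64 * E.CU / E.τ ^ 4 * hh E.δ i / (i : ℝ) ^ 3 +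
      6 * (i + 1) * hh E.δ i * 2 ^ (-(E.τ ^ 2 / 2) * i)) ≤ E.cH / 2 * hh E.δ i / i := by
    have h1 := mul_le_mul_of_nonneg_left hs1 hhp.le
    calc 3072 * E.CU * hh E.δ i / (i : ℝ) ^ 3 + (64 * E.CU / E.τ ^ 4 * hh E.δ i / (i : ℝ) ^ 3 +
      6 * (i + 1) * hh E.δ i * 2 ^ (-(E.τ ^ 2 / 2) * i)) =
      (hh E.δ i : ℝ) * ((3072 * E.CU + 64 * E.CU / E.τ ^ 4) / (i : ℝ) ^ 3 +
        6 * ((i : ℝ) + 1) * 2 ^ (-(E.τ ^ 2 / 2) * i)) := by ring
      _ ≤ (hh E.δ i : ℝ) * (E.cH / 2 / i) := h1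
      _ = E.cH / 2 * hh E.δ i / i := by ring
  have hhalf : E.cH * hh E.δ i / i = E.cH / 2 * hh E.δ i / i + E.cH / 2 * hh E.δ i / i := by
    ring
  linarith

end Pool.Agent.W501.MO
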